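import Mathlib

open Set MeasureTheory
open scoped ENNReal NNReal

namespace Pool.Agent.L7h32.SA

/-- The least number of sets of diameter at most `r` that cover `E`. -/
noncomputable def coverNumber {X : Type*} [PseudoEMetricSpace X] (r : ℝ) (E : Set X) : ℕ :=
  sInf {n : ℕ | ∃ U : Fin n → Set X,
    (∀ i, Metric.ediam (U i) ≤ ENNReal.ofReal r) ∧ E ⊆ ⋃ i, U i}

/-- `s` is an admissible exponent in the definition of the Assouad dimension of `F`. -/
def AssouadExponent {X : Type*} [PseudoMetricSpace X] (F : Set X) (s : ℝ≥0) : Prop :=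
  ∃ C : ℝ, 0 < C ∧ ∀ x ∈ F, ∀ r R : ℝ, 0 < r → r < R →
    (coverNumber r (Metric.closedBall x R ∩ F) : ℝ) ≤ C * (R / r) ^ (s : ℝ)

/-- `s` is an admissible exponent in the definition of the lower dimension of `F`. -/
def LowerExponent {X : Type*} [PseudoMetricSpace X] (F : Set X) (s : ℝ≥0) : Prop :=
  ∃ C : ℝ, 0 < C ∧ ∀ x ∈ F, ∀ r R : ℝ, 0 < r → r < R → R ≤ Metric.diam F →
    C * (R / r) ^ (s : ℝ) ≤ (coverNumber r (Metric.closedBall x R ∩ F) : ℝ)

/-- The Assouad dimension: the infimum of the admissible exponents. -/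
noncomputable def assouadDim {X : Type*} [PseudoMetricSpace X] (F : Set X) : ℝ≥0∞ :=
  ⨅ (s : ℝ≥0) (_ : AssouadExponent F s), (s : ℝ≥0∞)

/-- The lower dimension: the supremum of the admissible exponents. -/
noncomputable def lowerDim {X : Type*} [PseudoMetricSpace X] (F : Set X) : ℝ≥0∞ :=
  ⨆ (s : ℝ≥0) (_ : LowerExponent F s), (s : ℝ≥0∞)

/-- `F` is a nonempty compact set with `F = ⋃ i, (A i F + t i)`. -/
def IsAttractor {d m : ℕ}
    (A : Fin m → (EuclideanSpace ℝ (Fin d) →L[ℝ] EuclideanSpace ℝ (Fin d)))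
    (t : Fin m → EuclideanSpace ℝ (Fin d)) (F : Set (EuclideanSpace ℝ (Fin d))) : Prop :=
  F.Nonempty ∧ IsCompact F ∧ F = ⋃ i, (fun x => A i x + t i) '' F

end Pool.Agent.L7h32.SA
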