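import Pool.Agent.L7h32.SA.Gen

open Set MeasureTheory Filter
open scoped ENNReal NNReal Topology

namespace Pool.Agent.L7h32.SA

/-- The plane. -/
abbrev E2 : Type := EuclideanSpace ℝ (Fin 2)

/-- `diag(2/5, 1/5)`. -/
noncomputable def Dg : E2 →L[ℝ] E2 :=
  (2 / 5 : ℝ) • ContinuousLinearMap.id ℝ E2 -
    (1 / 5 : ℝ) • (EuclideanSpace.proj (1 : Fin 2) : E2 →L[ℝ] ℝ).smulRight
      (EuclideanSpace.single (1 : Fin 2) (1 : ℝ))

theorem Dg_zero (x : E2) : Dg x 0 = 2 / 5 * x 0 := by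
  simp [Dg]

theorem Dg_one (x : E2) : Dg x 1 = 1 / 5 * x 1 := by
  simp [Dg]; ring

/-- Nine similarities of ratio `2/5` and one copy of `diag(2/5, 1/5)`. -/
noncomputable def AA (i : Fin 10) : E2 →L[ℝ] E2 :=
  if i = 9 then Dg else (2 / 5 : ℝ) • ContinuousLinearMap.id ℝ E2

theorem AA_ne {i : Fin 10} (h : i ≠ 9) (x : E2) : AA i x = (2 / 5 : ℝ) • x := by
  simp [AA, h]

theorem AA_zero (i : Fin 10) (x : E2) : AA i x 0 = 2 / 5 * x 0 := by
  by_cases h : i = 9
  · subst h; simp [AA, Dg_zero]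
  · simp [AA, h]

theorem AA_one {i : Fin 10} (h : i ≠ 9) (x : E2) : AA i x 1 = 2 / 5 * x 1 := by
  simp [AA, h]

theorem AA_nine_one (x : E2) : AA 9 x 1 = 1 / 5 * x 1 := by
  simp [AA, Dg_one]

theorem AA_norm (i : Fin 10) : ‖AA i‖ ≤ 2 / 5 := by
  refine ContinuousLinearMap.opNorm_le_bound _ (by norm_num) fun x => ?_
  rw [EuclideanSpace.norm_eq, EuclideanSpace.norm_eq]
  have h1 : |AA i x 1| ≤ 2 / 5 * |x 1| := by
    by_cases h : i = 9
    · subst h; rw [AA_nine_one, abs_mul, abs_of_pos (by norm_num : (0 : ℝ) < 1 / 5)]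
      nlinarith [abs_nonneg (x 1)]
    · rw [AA_one h, abs_mul, abs_of_pos (by norm_num : (0 : ℝ) < 2 / 5)]
  have h0 : |AA i x 0| = 2 / 5 * |x 0| := by
    rw [AA_zero, abs_mul, abs_of_pos (by norm_num : (0 : ℝ) < 2 / 5)]
  apply Real.sqrt_le_iff.2
  refine ⟨by positivity, ?_⟩
  rw [mul_pow, Real.sq_sqrt (by positivity)]
  simp only [Fin.sum_univ_two, Real.norm_eq_abs]
  have h1' : |AA i x 1| ^ 2 ≤ (2 / 5 * |x 1|) ^ 2 :=
    pow_le_pow_left₀ (abs_nonneg _) h1 2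
  rw [h0]
  nlinarith

theorem AA_inj (i : Fin 10) : Function.Injective (AA i) := by
  intro x y hxy
  have h0 : AA i x 0 = AA i y 0 := by rw [hxy]
  have h1 : AA i x 1 = AA i y 1 := by rw [hxy]
  rw [AA_zero, AA_zero] at h0
  have e0 : x 0 = y 0 := by linarith
  have e1 : x 1 = y 1 := by
    by_cases h : i = 9
    · subst h; rw [AA_nine_one, AA_nine_one] at h1; linarith
    · rw [AA_one h, AA_one h] at h1; linarith
  ext k
  fin_cases k
  · exact e0
  · exact e1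

/-- Base points of the translations, the last one being `q`. -/
noncomputable def base (q : E2) (i : Fin 10) : E2 :=
  if i = 9 then q else
    !₂[13 / 20 * ((i.val % 3 : ℕ) : ℝ) - 13 / 20, 13 / 20 * ((i.val / 3 : ℕ) : ℝ) - 13 / 20]

/-- `t` is coordinatewise close to `base q`. -/
def Close (q : E2) (t : Fin 10 → E2) : Prop :=
  ∀ i, ∀ k, |t i k - base q i k| ≤ 1 / 20

theorem close_of_ball {q : E2} {t : Fin 10 → E2} (h : t ∈ Metric.ball (base q) (1 / 20)) :
    Close q t := by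
  intro i k
  have h1 : dist (t i) (base q i) < 1 / 20 := (dist_le_pi_dist t (base q) i).trans_lt h
  have h2 := EuclideanSpace.norm_eq (t i - base q i)
  rw [← dist_eq_norm] at h2
  have h3 : |t i k - base q i k| ≤ dist (t i) (base q i) := by
    rw [dist_eq_norm]
    exact PiLp.norm_apply_le (t i - base q i) k
  linarith

theorem close_idx {q : E2} {t : Fin 10 → E2} (h : Close q t) (a b : Fin 3) :
    ∃ i : Fin 10, i ≠ 9 ∧ |t i 0 - (13 / 20 * (a.val : ℝ) - 13 / 20)| ≤ 1 / 20 ∧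
      |t i 1 - (13 / 20 * (b.val : ℝ) - 13 / 20)| ≤ 1 / 20 := by
  have hlt : 3 * b.val + a.val < 10 := by omega
  have hne : (⟨3 * b.val + a.val, hlt⟩ : Fin 10) ≠ 9 := by
    intro h
    have := congrArg Fin.val h
    simp at this
    omega
  refine ⟨⟨3 * b.val + a.val, hlt⟩, hne, ?_, ?_⟩
  · have h0 := h ⟨3 * b.val + a.val, hlt⟩ 0
    have e : (3 * b.val + a.val) % 3 = a.val := by omega
    simpa [base, hne, e] using h0
  · have h1 := h ⟨3 * b.val + a.val, hlt⟩ 1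
    have e : (3 * b.val + a.val) / 3 = b.val := by omega
    simpa [base, hne, e] using h1

/-- A number of `[-1,1]` lies in one of three intervals of length `4/5`. -/
theorem cover_line {x : ℝ} (hx : |x| ≤ 1) :
    ∃ a : Fin 3, ∀ τ : ℝ, |τ - (13 / 20 * (a.val : ℝ) - 13 / 20)| ≤ 1 / 20 →
      |(x - τ) * (5 / 2)| ≤ 1 := by
  rw [abs_le] at hx
  rcases le_or_gt x (-(3 / 10)) with h | h
  · refine ⟨0, fun τ hτ => ?_⟩
    rw [abs_le] at hτ ⊢
    simp at hτ
    constructor <;> linarith [hτ.1, hτ.2]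
  · rcases le_or_gt x (3 / 10) with h' | h'
    · refine ⟨1, fun τ hτ => ?_⟩
      rw [abs_le] at hτ ⊢
      simp at hτ
      constructor <;> linarith [hτ.1, hτ.2]
    · refine ⟨2, fun τ hτ => ?_⟩
      rw [abs_le] at hτ ⊢
      simp at hτ
      constructor <;> linarith [hτ.1, hτ.2]

/-- The square. -/
def Q : Set E2 := {x | |x 0| ≤ 1 ∧ |x 1| ≤ 1}

theorem Q_cover {q : E2} {t : Fin 10 → E2} (h : Close q t) {x : E2} (hx : x ∈ Q) :
    ∃ i, i ≠ 9 ∧ ∃ y ∈ Q, AA i y + t i = x := by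
  obtain ⟨a, ha⟩ := cover_line hx.1
  obtain ⟨b, hb⟩ := cover_line hx.2
  obtain ⟨i, hi, h0, h1⟩ := close_idx h a b
  refine ⟨i, hi, (5 / 2 : ℝ) • (x - t i), ⟨?_, ?_⟩, ?_⟩
  · have := ha _ h0
    rw [mul_comm] at this
    simpa using this
  · have := hb _ h1
    rw [mul_comm] at this
    simpa using this
  · rw [AA_ne hi, smul_smul]
    norm_num

theorem Q_bounded : Bornology.IsBounded Q := by
  refine (Metric.isBounded_closedBall (x := (0 : E2)) (r := 2)).subset ?_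
  intro x hx
  rw [mem_closedBall_zero_iff, EuclideanSpace.norm_eq]
  apply Real.sqrt_le_iff.2
  refine ⟨by norm_num, ?_⟩
  simp only [Fin.sum_univ_two, Real.norm_eq_abs]
  have h0 := pow_le_pow_left₀ (abs_nonneg _) hx.1 2
  have h1 := pow_le_pow_left₀ (abs_nonneg _) hx.2 2
  linarith

theorem Q_sub {q : E2} {t : Fin 10 → E2} (h : Close q t) {F : Set E2}
    (hF : IsAttractor AA t F) : Q ⊆ F := by
  refine sub_attractor (by norm_num) (by norm_num) AA_norm hF Q_bounded ?_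
  intro x hx
  obtain ⟨i, _, y, hy, hyx⟩ := Q_cover h hx
  exact ⟨i, y, hy, hyx⟩

theorem abs_coord_le (x : E2) (k : Fin 2) : |x k| ≤ ‖x‖ := PiLp.norm_apply_le x k

theorem ball_sub_Q : Metric.closedBall (0 : E2) 1 ⊆ Q := by
  intro x hx
  rw [mem_closedBall_zero_iff] at hx
  exact ⟨(abs_coord_le x 0).trans hx, (abs_coord_le x 1).trans hx⟩

theorem two_le {q : E2} {t : Fin 10 → E2} (h : Close q t) {F : Set E2}
    (hF : IsAttractor AA t F) : 2 ≤ assouadDim F := by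
  have := two_le_assouad (d := 2) (ball_sub_Q.trans (Q_sub h hF))
  simpa using this

theorem mem_F {t : Fin 10 → E2} {F : Set E2} (hF : IsAttractor AA t F) {x : E2} (hx : x ∈ F)
    (i : Fin 10) : AA i x + t i ∈ F := by
  rw [hF.2.2]
  exact mem_iUnion.2 ⟨i, x, hx, rfl⟩

theorem exists_F {t : Fin 10 → E2} {F : Set E2} (hF : IsAttractor AA t F) {x : E2}
    (hx : x ∈ F) : ∃ i, ∃ y ∈ F, AA i y + t i = x := by
  rw [hF.2.2] at hx
  obtain ⟨i, y, hy, h⟩ := mem_iUnion.1 hx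
  exact ⟨i, y, hy, h⟩

theorem base_bound {q : E2} {t : Fin 10 → E2} (h : Close q t) {i : Fin 10} (hi : i ≠ 9)
    (k : Fin 2) : |t i k| ≤ 7 / 10 := by
  have h1 := h i k
  have h2 : |base q i k| ≤ 13 / 20 := by
    have e0 : ((i.val % 3 : ℕ) : ℝ) ≤ 2 := by
      have : i.val % 3 ≤ 2 := by omega
      exact_mod_cast this
    have e1 : ((i.val / 3 : ℕ) : ℝ) ≤ 2 := by
      have hne : i.val ≠ 9 := fun h => hi (Fin.ext h)
      have : i.val / 3 ≤ 2 := by omega
      exact_mod_cast this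
    have e0' : (0 : ℝ) ≤ ((i.val % 3 : ℕ) : ℝ) := Nat.cast_nonneg _
    have e1' : (0 : ℝ) ≤ ((i.val / 3 : ℕ) : ℝ) := Nat.cast_nonneg _
    rw [abs_le]
    fin_cases k
    · simp [base, hi]
      linarith
    · simp [base, hi]
      linarith
  rw [abs_le] at h1 h2 ⊢
  constructor <;> linarith [h1.1, h1.2, h2.1, h2.2]

end Pool.Agent.L7h32.SA
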