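import Pool.Agent.L7h32.SA.Defs

open Set MeasureTheory Filter
open scoped ENNReal NNReal Topology

namespace Pool.Agent.L7h32.SA

/-- Bounded backward invariant sets lie in closed forward invariant sets. -/
theorem sub_of_backward {E : Type*} [PseudoMetricSpace E] {ι : Type*} {f : ι → E → E} {c : ℝ}
    (hc0 : 0 ≤ c) (hc1 : c < 1) (hf : ∀ i x y, dist (f i x) (f i y) ≤ c * dist x y)
    {B G : Set E} (hBb : Bornology.IsBounded B) (hB : B ⊆ ⋃ i, f i '' B)
    (hGc : IsClosed G) (hGn : G.Nonempty) (hG : ∀ i, f i '' G ⊆ G) : B ⊆ G := by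
  obtain ⟨g0, hg0⟩ := hGn
  obtain ⟨D, hD⟩ := (Metric.isBounded_iff_subset_closedBall g0).1 hBb
  have key : ∀ n : ℕ, ∀ x ∈ B, ∃ g ∈ G, dist x g ≤ c ^ n * D := by
    intro n
    induction n with
    | zero =>
      intro x hx
      exact ⟨g0, hg0, by simpa using hD hx⟩
    | succ n ih =>
      intro x hx
      obtain ⟨i, y, hy, rfl⟩ := mem_iUnion.1 (hB hx)
      obtain ⟨g, hg, hyg⟩ := ih y hy
      refine ⟨f i g, hG i ⟨g, hg, rfl⟩, (hf i y g).trans ?_⟩
      calc c * dist y g ≤ c * (c ^ n * D) := mul_le_mul_of_nonneg_left hyg hc0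
        _ = c ^ (n + 1) * D := by ring
  intro x hx
  rw [← hGc.closure_eq, Metric.mem_closure_iff]
  intro ε hε
  have h0 : Tendsto (fun n : ℕ => c ^ n * D) atTop (𝓝 (0 * D)) :=
    (tendsto_pow_atTop_nhds_zero_of_lt_one hc0 hc1).mul_const D
  rw [zero_mul] at h0
  obtain ⟨n, hn⟩ := ((tendsto_order.1 h0).2 ε hε).exists
  obtain ⟨g, hg, hxg⟩ := key n x hx
  exact ⟨g, hg, hxg.trans_lt hn⟩

section Attractor

variable {d m : ℕ}

theorem dist_affine (A : EuclideanSpace ℝ (Fin d) →L[ℝ] EuclideanSpace ℝ (Fin d))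
    (t x y : EuclideanSpace ℝ (Fin d)) {c : ℝ} (hA : ‖A‖ ≤ c) :
    dist (A x + t) (A y + t) ≤ c * dist x y := by
  rw [dist_add_right, dist_eq_norm, dist_eq_norm, ← map_sub]
  exact (A.le_opNorm _).trans (mul_le_mul_of_nonneg_right hA (norm_nonneg _))

theorem attractor_sub {A : Fin m → (EuclideanSpace ℝ (Fin d) →L[ℝ] EuclideanSpace ℝ (Fin d))}
    {t : Fin m → EuclideanSpace ℝ (Fin d)} {F G : Set (EuclideanSpace ℝ (Fin d))} {c : ℝ}
    (hc0 : 0 ≤ c) (hc1 : c < 1) (hA : ∀ i, ‖A i‖ ≤ c) (hF : IsAttractor A t F)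
    (hGc : IsClosed G) (hGn : G.Nonempty) (hG : ∀ i, ∀ x ∈ G, A i x + t i ∈ G) : F ⊆ G := by
  refine sub_of_backward (f := fun i x => A i x + t i) hc0 hc1
    (fun i x y => dist_affine _ _ _ _ (hA i)) hF.2.1.isBounded hF.2.2.le hGc hGn ?_
  rintro i _ ⟨x, hx, rfl⟩
  exact hG i x hx

theorem sub_attractor {A : Fin m → (EuclideanSpace ℝ (Fin d) →L[ℝ] EuclideanSpace ℝ (Fin d))}
    {t : Fin m → EuclideanSpace ℝ (Fin d)} {F B : Set (EuclideanSpace ℝ (Fin d))} {c : ℝ}
    (hc0 : 0 ≤ c) (hc1 : c < 1) (hA : ∀ i, ‖A i‖ ≤ c) (hF : IsAttractor A t F)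
    (hBb : Bornology.IsBounded B) (hB : ∀ x ∈ B, ∃ i, ∃ y ∈ B, A i y + t i = x) : B ⊆ F := by
  refine sub_of_backward (f := fun i x => A i x + t i) hc0 hc1
    (fun i x y => dist_affine _ _ _ _ (hA i)) hBb ?_ hF.2.1.isClosed hF.1 ?_
  · intro x hx
    obtain ⟨i, y, hy, h⟩ := hB x hx
    exact mem_iUnion.2 ⟨i, y, hy, h⟩
  · intro i
    conv_rhs => rw [hF.2.2]
    exact subset_iUnion (fun i => (fun x => A i x + t i) '' F) i

theorem attractor_unique
    {A : Fin m → (EuclideanSpace ℝ (Fin d) →L[ℝ] EuclideanSpace ℝ (Fin d))}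
    {t : Fin m → EuclideanSpace ℝ (Fin d)} {F G : Set (EuclideanSpace ℝ (Fin d))} {c : ℝ}
    (hc0 : 0 ≤ c) (hc1 : c < 1) (hA : ∀ i, ‖A i‖ ≤ c) (hF : IsAttractor A t F)
    (hG : IsAttractor A t G) : F = G := by
  apply Subset.antisymm
  · refine attractor_sub hc0 hc1 hA hF hG.2.1.isClosed hG.1 ?_
    intro i x hx
    rw [hG.2.2]
    exact mem_iUnion.2 ⟨i, x, hx, rfl⟩
  · refine attractor_sub hc0 hc1 hA hG hF.2.1.isClosed hF.1 ?_
    intro i x hx
    rw [hF.2.2]
    exact mem_iUnion.2 ⟨i, x, hx, rfl⟩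

theorem attractor_exists [Nonempty (Fin m)]
    {A : Fin m → (EuclideanSpace ℝ (Fin d) →L[ℝ] EuclideanSpace ℝ (Fin d))}
    (t : Fin m → EuclideanSpace ℝ (Fin d)) {c : ℝ}
    (hc0 : 0 ≤ c) (hc1 : c < 1) (hA : ∀ i, ‖A i‖ ≤ c) (hinj : ∀ i, Function.Injective (A i)) :
    ∃ F, IsAttractor A t F := by
  obtain ⟨T, hT⟩ : ∃ T : ℝ, ∀ i, ‖t i‖ ≤ T := by
    obtain ⟨T, hT⟩ := (Set.finite_range (fun i => ‖t i‖)).bddAbove
    exact ⟨T, fun i => hT ⟨i, rfl⟩⟩
  have hT0 : 0 ≤ T := (norm_nonneg _).trans (hT (Classical.arbitrary _))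
  set ρ : ℝ := T / (1 - c) with hρ
  have h1c : 0 < 1 - c := by linarith
  have hρ0 : 0 ≤ ρ := div_nonneg hT0 h1c.le
  have hρT : c * ρ + T = ρ := by
    have : T = (1 - c) * ρ := by rw [hρ]; field_simp
    rw [this]; ring
  let Φ : Set (EuclideanSpace ℝ (Fin d)) → Set (EuclideanSpace ℝ (Fin d)) :=
    fun K => ⋃ i, (fun x => A i x + t i) '' K
  let K : ℕ → Set (EuclideanSpace ℝ (Fin d)) := fun n => Φ^[n] (Metric.closedBall 0 ρ)
  have hKs : ∀ n, K (n + 1) = Φ (K n) := fun n => Function.iterate_succ_apply' Φ n _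
  have hΦm : Monotone Φ := by
    intro S T hST
    exact iUnion_mono fun i => image_mono hST
  have hK0 : K 1 ⊆ K 0 := by
    intro x hx
    rw [hKs 0] at hx
    obtain ⟨i, y, hy, rfl⟩ := mem_iUnion.1 hx
    have hy' : ‖y‖ ≤ ρ := by simpa [K] using hy
    have : ‖A i y + t i‖ ≤ ρ := by
      calc ‖A i y + t i‖ ≤ ‖A i y‖ + ‖t i‖ := norm_add_le _ _
        _ ≤ c * ρ + T := add_le_add (((A i).le_opNorm y).trans
            (mul_le_mul (hA i) hy' (norm_nonneg _) hc0)) (hT i)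
        _ = ρ := hρT
    simpa [K] using this
  have hdec : ∀ n, K (n + 1) ⊆ K n := by
    intro n
    induction n with
    | zero => exact hK0
    | succ n ih =>
      calc K (n + 1 + 1) = Φ (K (n + 1)) := hKs (n + 1)
        _ ⊆ Φ (K n) := hΦm ih
        _ = K (n + 1) := (hKs n).symm
  have hcomp : ∀ n, IsCompact (K n) := by
    intro n
    induction n with
    | zero => exact isCompact_closedBall 0 ρ
    | succ n ih =>
      rw [hKs n]
      exact isCompact_iUnion fun i => ih.image ((A i).continuous.add continuous_const)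
  have hne : ∀ n, (K n).Nonempty := by
    intro n
    induction n with
    | zero => exact ⟨0, by simpa [K] using hρ0⟩
    | succ n ih =>
      rw [hKs n]
      obtain ⟨x, hx⟩ := ih
      exact ⟨_, mem_iUnion.2 ⟨Classical.arbitrary _, x, hx, rfl⟩⟩
  have hanti : Antitone K := antitone_nat_of_succ_le hdec
  have hFne : (⋂ n, K n).Nonempty :=
    IsCompact.nonempty_iInter_of_sequence_nonempty_isCompact_isClosed K hdec hne (hcomp 0)
      (fun n => (hcomp n).isClosed)
  have hFc : IsCompact (⋂ n, K n) :=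
    (hcomp 0).of_isClosed_subset (isClosed_iInter fun n => (hcomp n).isClosed)
      (iInter_subset _ 0)
  refine ⟨⋂ n, K n, hFne, hFc, ?_⟩
  apply Subset.antisymm
  · intro x hx
    rw [mem_iInter] at hx
    by_contra hcon
    have hno : ∀ i, ∃ n, x ∉ (fun x => A i x + t i) '' K n := by
      intro i
      by_contra h
      push Not at h
      apply hcon
      rw [mem_iUnion]
      refine ⟨i, ?_⟩
      obtain ⟨y, hy, hyx⟩ := h 0
      refine ⟨y, ?_, hyx⟩
      rw [mem_iInter]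
      intro n
      obtain ⟨z, hz, hzx⟩ := h n
      have : A i z = A i y := by
        have : A i z + t i = A i y + t i := by rw [← hyx] at hzx; exact hzx
        exact add_right_cancel this
      rwa [← hinj i this]
    choose N hN using hno
    obtain ⟨M, hM⟩ := (Set.finite_range N).bddAbove
    have hxM := hx (M + 1)
    rw [hKs M] at hxM
    obtain ⟨i, y, hy, hyx⟩ := mem_iUnion.1 hxM
    exact hN i ⟨y, hanti (hM ⟨i, rfl⟩) hy, hyx⟩
  · intro x hx
    obtain ⟨i, y, hy, rfl⟩ := mem_iUnion.1 hx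
    rw [mem_iInter] at hy ⊢
    intro n
    apply hdec n
    rw [hKs n]
    exact mem_iUnion.2 ⟨i, y, hy n, rfl⟩

end Attractor

section Cover

/-- The set of admissible numbers of covering sets is nonempty for bounded sets. -/
theorem cover_nonempty {d : ℕ} {S : Set (EuclideanSpace ℝ (Fin d))}
    (hS : Bornology.IsBounded S) {r : ℝ} (hr : 0 < r) :
    {n : ℕ | ∃ U : Fin n → Set (EuclideanSpace ℝ (Fin d)),
      (∀ i, Metric.ediam (U i) ≤ ENNReal.ofReal r) ∧ S ⊆ ⋃ i, U i}.Nonempty := by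
  have htb : TotallyBounded S :=
    (Metric.isCompact_of_isClosed_isBounded isClosed_closure hS.closure).totallyBounded.subset
      subset_closure
  obtain ⟨T, hTf, hT⟩ := (Metric.totallyBounded_iff.1 htb) (r / 2) (by linarith)
  have : Finite T := hTf.to_subtype
  obtain ⟨n, ⟨e⟩⟩ := Finite.exists_equiv_fin T
  refine ⟨n, fun i => Metric.ball ((e.symm i : T) : EuclideanSpace ℝ (Fin d)) (r / 2), ?_, ?_⟩
  · intro i
    apply Metric.ediam_le
    intro x hx y hy
    rw [edist_dist]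
    apply ENNReal.ofReal_le_ofReal
    have h1 : dist x (e.symm i : T) < r / 2 := hx
    have h2 : dist y (e.symm i : T) < r / 2 := hy
    have := dist_triangle_right x y ((e.symm i : T) : EuclideanSpace ℝ (Fin d))
    linarith
  · intro x hx
    have := hT hx
    simp only [mem_iUnion] at this ⊢
    obtain ⟨y, hy, hxy⟩ := this
    exact ⟨e ⟨y, hy⟩, by simpa using hxy⟩

/-- A set containing a ball of radius `ρ` needs at least `(ρ / r) ^ d` sets of diameter `r`. -/
theorem coverNumber_lower {d : ℕ} {S : Set (EuclideanSpace ℝ (Fin d))}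
    (hS : Bornology.IsBounded S) {r ρ : ℝ} (hr : 0 < r) (hρ : 0 ≤ ρ)
    {z : EuclideanSpace ℝ (Fin d)} (hz : Metric.closedBall z ρ ⊆ S) :
    (ρ / r) ^ d ≤ (coverNumber r S : ℝ) := by
  obtain ⟨U, hU, hSU⟩ := Nat.sInf_mem (cover_nonempty hS hr)
  change ∀ i : Fin (coverNumber r S), _ at hU
  set n := coverNumber r S with hn
  set μ : Measure (EuclideanSpace ℝ (Fin d)) := volume with hμ
  have hfr : Module.finrank ℝ (EuclideanSpace ℝ (Fin d)) = d := finrank_euclideanSpace_fin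
  have h1 : ∀ i, μ (U i) ≤ ENNReal.ofReal (r ^ d) * μ (Metric.ball 0 1) := by
    intro i
    rcases (U i).eq_empty_or_nonempty with h | ⟨x, hx⟩
    · rw [h]; simp
    · have hsub : U i ⊆ Metric.closedBall x r := by
        intro y hy
        rw [Metric.mem_closedBall, ← ENNReal.ofReal_le_ofReal_iff hr.le, ← edist_dist]
        exact (Metric.edist_le_ediam_of_mem hy hx).trans (hU i)
      calc μ (U i) ≤ μ (Metric.closedBall x r) := measure_mono hsub
        _ = ENNReal.ofReal (r ^ d) * μ (Metric.ball 0 1) := by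
          rw [Measure.addHaar_closedBall μ x hr.le, hfr]
  have h2 : ENNReal.ofReal (ρ ^ d) * μ (Metric.ball 0 1)
      ≤ n * (ENNReal.ofReal (r ^ d) * μ (Metric.ball 0 1)) := by
    calc ENNReal.ofReal (ρ ^ d) * μ (Metric.ball 0 1)
        = μ (Metric.closedBall z ρ) := by
          rw [Measure.addHaar_closedBall μ z hρ, hfr]
      _ ≤ μ (⋃ i, U i) := measure_mono (hz.trans hSU)
      _ ≤ ∑ i, μ (U i) := measure_iUnion_fintype_le μ U
      _ ≤ ∑ _i : Fin n, ENNReal.ofReal (r ^ d) * μ (Metric.ball 0 1) :=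
          Finset.sum_le_sum fun i _ => h1 i
      _ = n * (ENNReal.ofReal (r ^ d) * μ (Metric.ball 0 1)) := by simp
  have hB0 : μ (Metric.ball (0 : EuclideanSpace ℝ (Fin d)) 1) ≠ 0 :=
    (Metric.measure_ball_pos μ 0 one_pos).ne'
  have hBt : μ (Metric.ball (0 : EuclideanSpace ℝ (Fin d)) 1) ≠ ⊤ := measure_ball_lt_top.ne
  rw [← mul_assoc] at h2
  have h3 := (ENNReal.mul_le_mul_iff_left hB0 hBt).1 h2
  have h4 : ENNReal.ofReal (ρ ^ d) ≤ ENNReal.ofReal ((n : ℝ) * r ^ d) := by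
    rw [ENNReal.ofReal_mul (Nat.cast_nonneg n), ENNReal.ofReal_natCast]
    exact h3
  have h5 : ρ ^ d ≤ (n : ℝ) * r ^ d := (ENNReal.ofReal_le_ofReal_iff (by positivity)).1 h4
  rw [div_pow, div_le_iff₀ (by positivity)]
  exact h5

/-- Upper bound for the covering number by an explicit cover. -/
theorem coverNumber_le {X : Type*} [PseudoEMetricSpace X] {r : ℝ} {S : Set X} {n : ℕ}
    (U : Fin n → Set X) (hU : ∀ i, Metric.ediam (U i) ≤ ENNReal.ofReal r)
    (hS : S ⊆ ⋃ i, U i) : coverNumber r S ≤ n :=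
  Nat.sInf_le ⟨U, hU, hS⟩

/-- Thin rectangles are covered by few sets. -/
theorem coverNumber_thin {S : Set (EuclideanSpace ℝ (Fin 2))} {a b R h r : ℝ} (hr : 0 < r)
    (hR : 0 ≤ R) (h4 : 4 * h ≤ r) (hS : ∀ x ∈ S, |x 0 - a| ≤ R ∧ |x 1 - b| ≤ h) :
    (coverNumber r S : ℝ) ≤ 4 * (R / r) + 1 := by
  have hle : coverNumber r S ≤ ⌊4 * (R / r)⌋₊ + 1 := by
    refine coverNumber_le (fun j : Fin (⌊4 * (R / r)⌋₊ + 1) =>
      {x | |x 1 - b| ≤ h ∧ (j : ℝ) * (r / 2) ≤ x 0 - (a - R) ∧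
        x 0 - (a - R) ≤ ((j : ℝ) + 1) * (r / 2)}) ?_ ?_
    · intro j
      apply Metric.ediam_le
      rintro x ⟨hx1, hx2, hx3⟩ y ⟨hy1, hy2, hy3⟩
      rw [edist_dist]
      apply ENNReal.ofReal_le_ofReal
      rw [EuclideanSpace.dist_eq]
      apply Real.sqrt_le_iff.2
      refine ⟨hr.le, ?_⟩
      simp only [Fin.sum_univ_two, Real.dist_eq, sq_abs]
      have e0 : |x 0 - y 0| ≤ r / 2 := by
        rw [abs_le]; constructor <;> nlinarith
      have e1 : |x 1 - y 1| ≤ r / 2 := by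
        rw [abs_le] at hx1 hy1 ⊢; constructor <;> linarith [hx1.1, hx1.2, hy1.1, hy1.2]
      have e0' := sq_le_sq' (by linarith [abs_nonneg (x 0 - y 0)]) e0
      have e1' := sq_le_sq' (by linarith [abs_nonneg (x 1 - y 1)]) e1
      rw [sq_abs] at e0' e1'
      nlinarith
    · intro x hx
      obtain ⟨h0, h1⟩ := hS x hx
      rw [abs_le] at h0
      have hnn : 0 ≤ (x 0 - (a - R)) / (r / 2) := div_nonneg (by linarith [h0.1]) (by linarith)
      have hup : (x 0 - (a - R)) / (r / 2) ≤ 4 * (R / r) := by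
        rw [div_le_iff₀ (by linarith)]
        have : 4 * (R / r) * (r / 2) = 2 * R := by field_simp; ring
        rw [this]; linarith [h0.2]
      have hlt : ⌊(x 0 - (a - R)) / (r / 2)⌋₊ < ⌊4 * (R / r)⌋₊ + 1 :=
        Nat.lt_succ_of_le (Nat.floor_le_floor hup)
      rw [mem_iUnion]
      refine ⟨⟨_, hlt⟩, h1, ?_, ?_⟩
      · have := Nat.floor_le hnn
        rwa [le_div_iff₀ (by linarith)] at this
      · have := (Nat.lt_floor_add_one ((x 0 - (a - R)) / (r / 2))).le
        rwa [div_le_iff₀ (by linarith)] at this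
  have hnn : 0 ≤ 4 * (R / r) := by positivity
  calc (coverNumber r S : ℝ) ≤ ((⌊4 * (R / r)⌋₊ + 1 : ℕ) : ℝ) := by exact_mod_cast hle
    _ = (⌊4 * (R / r)⌋₊ : ℝ) + 1 := by push_cast; ring
    _ ≤ 4 * (R / r) + 1 := by linarith [Nat.floor_le hnn]

/-- Comparison of exponents along a sequence going to infinity. -/
theorem exp_le {p q C : ℝ} {x : ℕ → ℝ} (hx : Tendsto x atTop atTop)
    (h : ∀ n, 0 < x n → (x n) ^ p ≤ C * (x n) ^ q) : p ≤ q := by
  by_contra hlt
  push Not at hlt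
  have h1 : Tendsto (fun n => (x n) ^ (p - q)) atTop atTop :=
    (tendsto_rpow_atTop (by linarith)).comp hx
  obtain ⟨n, hn1, hn2⟩ := ((h1.eventually_gt_atTop C).and (hx.eventually_gt_atTop 0)).exists
  have h2 := h n hn2
  have h3 : (x n) ^ p = (x n) ^ (p - q) * (x n) ^ q := by
    rw [← Real.rpow_add hn2]; ring_nf
  rw [h3] at h2
  have h4 : 0 < (x n) ^ q := Real.rpow_pos_of_pos hn2 q
  have := le_of_mul_le_mul_right h2 h4
  linarith

/-- A set containing a ball has Assouad dimension at least `d`. -/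
theorem two_le_assouad {d : ℕ} {F : Set (EuclideanSpace ℝ (Fin d))}
    {z : EuclideanSpace ℝ (Fin d)} (hz : Metric.closedBall z 1 ⊆ F) :
    (d : ℝ≥0∞) ≤ assouadDim F := by
  refine le_iInf₂ fun s hs => ?_
  obtain ⟨C, hC, hs⟩ := hs
  have hzF : z ∈ F := hz (Metric.mem_closedBall_self zero_le_one)
  have key : (d : ℝ) ≤ (s : ℝ) := by
    refine exp_le (C := C) (x := fun n : ℕ => (n : ℝ) + 2) ?_ ?_
    · exact tendsto_atTop_add_const_right _ _ tendsto_natCast_atTop_atTop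
    · intro n _
      have hn : (0 : ℝ) < (n : ℝ) + 2 := by positivity
      have hr : (0 : ℝ) < 1 / ((n : ℝ) + 2) := by positivity
      have hr1 : 1 / ((n : ℝ) + 2) < 1 := by
        rw [div_lt_one hn]; have : (0 : ℝ) ≤ n := Nat.cast_nonneg n; linarith
      have h1 := hs z hzF (1 / ((n : ℝ) + 2)) 1 hr hr1
      have h2 := coverNumber_lower (S := Metric.closedBall z 1 ∩ F) (r := 1 / ((n : ℝ) + 2))
        (ρ := 1) (z := z) (Metric.isBounded_closedBall.subset inter_subset_left) hr zero_le_one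
        (fun y hy => ⟨hy, hz hy⟩)
      have e : 1 / (1 / ((n : ℝ) + 2)) = (n : ℝ) + 2 := by field_simp
      rw [e] at h1 h2
      rw [Real.rpow_natCast]
      exact h2.trans h1
  have : ((d : ℝ≥0) : ℝ≥0∞) ≤ (s : ℝ≥0∞) := by
    rw [ENNReal.coe_le_coe]
    exact_mod_cast key
  simpa using this

end Cover

end Pool.Agent.L7h32.SA
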