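import Pool.Agent.L7h32.SA.Ex

open Set MeasureTheory Filter
open scoped ENNReal NNReal Topology

namespace Pool.Agent.L7h32.SA

/-- closed boxes -/
def Box (a b : ℝ) : Set E2 := {x | |x 0| ≤ a ∧ |x 1| ≤ b}

theorem cont_coord (k : Fin 2) : Continuous fun x : E2 => x k :=
  (EuclideanSpace.proj k : E2 →L[ℝ] ℝ).continuous

theorem Box_closed (a b : ℝ) : IsClosed (Box a b) := by
  refine IsClosed.inter ?_ ?_
  · exact isClosed_le ((cont_coord 0).abs) continuous_const
  · exact isClosed_le ((cont_coord 1).abs) continuous_const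

theorem Box_nonempty {a b : ℝ} (ha : 0 ≤ a) (hb : 0 ≤ b) : (Box a b).Nonempty :=
  ⟨0, by simpa [Box] using ⟨ha, hb⟩⟩

theorem abs_aff {c x τ a T b : ℝ} (hc : 0 ≤ c) (hx : |x| ≤ a) (hτ : |τ| ≤ T)
    (h : c * a + T ≤ b) : |c * x + τ| ≤ b := by
  calc |c * x + τ| ≤ |c * x| + |τ| := abs_add_le _ _
    _ = c * |x| + |τ| := by rw [abs_mul, abs_of_nonneg hc]
    _ ≤ c * a + T := add_le_add (mul_le_mul_of_nonneg_left hx hc) hτ
    _ ≤ b := h

/-! ### The first region: the diagonal map is hidden inside. -/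

theorem base_zero {t : Fin 10 → E2} (h : Close 0 t) (k : Fin 2) : |t 9 k| ≤ 1 / 20 := by
  have := h 9 k
  simpa [base] using this

theorem F_box1 {t : Fin 10 → E2} (h : Close 0 t) {F : Set E2} (hF : IsAttractor AA t F) :
    F ⊆ Box (5 / 4) (5 / 4) := by
  refine attractor_sub (by norm_num) (by norm_num) AA_norm hF (Box_closed _ _)
    (Box_nonempty (by norm_num) (by norm_num)) ?_
  intro i x hx
  by_cases hi : i = 9
  · subst hi
    refine ⟨?_, ?_⟩
    · rw [PiLp.add_apply, AA_zero]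
      exact abs_aff (by norm_num) hx.1 (base_zero h 0) (by norm_num)
    · rw [PiLp.add_apply, AA_nine_one]
      exact abs_aff (by norm_num) hx.2 (base_zero h 1) (by norm_num)
  · refine ⟨?_, ?_⟩
    · rw [PiLp.add_apply, AA_zero]
      exact abs_aff (by norm_num) hx.1 (base_bound h hi 0) (by norm_num)
    · rw [PiLp.add_apply, AA_one hi]
      exact abs_aff (by norm_num) hx.2 (base_bound h hi 1) (by norm_num)

theorem F_step1 {t : Fin 10 → E2} (h : Close 0 t) {F : Set E2} (hF : IsAttractor AA t F)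
    {x : E2} (hx : x ∈ F) : ∃ i, i ≠ 9 ∧ ∃ y ∈ F, AA i y + t i = x := by
  obtain ⟨i, y, hy, hyx⟩ := exists_F hF hx
  by_cases hi : i = 9
  · subst hi
    have hyb := F_box1 h hF hy
    have hxQ : x ∈ Q := by
      rw [← hyx]
      refine ⟨?_, ?_⟩
      · rw [PiLp.add_apply, AA_zero]
        exact abs_aff (by norm_num) hyb.1 (base_zero h 0) (by norm_num)
      · rw [PiLp.add_apply, AA_nine_one]
        exact abs_aff (by norm_num) hyb.2 (base_zero h 1) (by norm_num)
    obtain ⟨j, hj, z, hz, hzx⟩ := Q_cover h hxQ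
    exact ⟨j, hj, z, Q_sub h hF hz, hzx⟩
  · exact ⟨i, hi, y, hy, hyx⟩

theorem F_copy {t : Fin 10 → E2} (h : Close 0 t) {F : Set E2} (hF : IsAttractor AA t F)
    (k : ℕ) : ∀ x ∈ F, ∃ v : E2, (∃ q ∈ F, x = ((2 / 5 : ℝ) ^ k) • q + v) ∧
      ∀ y ∈ F, ((2 / 5 : ℝ) ^ k) • y + v ∈ F := by
  induction k with
  | zero =>
    intro x hx
    exact ⟨0, ⟨x, hx, by simp⟩, fun y hy => by simpa using hy⟩
  | succ k ih =>
    intro x hx
    obtain ⟨i, hi, y, hy, hyx⟩ := F_step1 h hF hx
    obtain ⟨v, ⟨q, hq, hyq⟩, hv⟩ := ih y hy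
    refine ⟨(2 / 5 : ℝ) • v + t i, ⟨q, hq, ?_⟩, ?_⟩
    · rw [← hyx, AA_ne hi, hyq, smul_add, smul_smul, pow_succ, mul_comm, add_assoc]
    · intro z hz
      have h1 := mem_F hF (hv z hz) i
      rw [AA_ne hi, smul_add, smul_smul, mul_comm, ← pow_succ, add_assoc] at h1
      exact h1

theorem norm_le_two {x : E2} (hx : x ∈ Box (5 / 4) (5 / 4)) : ‖x‖ ≤ 2 := by
  rw [EuclideanSpace.norm_eq]
  apply Real.sqrt_le_iff.2
  refine ⟨by norm_num, ?_⟩
  simp only [Fin.sum_univ_two, Real.norm_eq_abs]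
  have h0 := pow_le_pow_left₀ (abs_nonneg _) hx.1 2
  have h1 := pow_le_pow_left₀ (abs_nonneg _) hx.2 2
  linarith

theorem lower_ge {t : Fin 10 → E2} (h : Close 0 t) {F : Set E2} (hF : IsAttractor AA t F) :
    2 ≤ lowerDim F := by
  have hexp : LowerExponent F 2 := by
    refine ⟨1 / 100, by norm_num, ?_⟩
    intro x hx r R hr hrR hRd
    have hR : 0 < R := hr.trans hrR
    have hdiam : Metric.diam F ≤ 4 := by
      refine Metric.diam_le_of_forall_dist_le (by norm_num) ?_
      intro y hy z hz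
      have h1 := norm_le_two (F_box1 h hF hy)
      have h2 := norm_le_two (F_box1 h hF hz)
      calc dist y z ≤ ‖y‖ + ‖z‖ := dist_le_norm_add_norm y z
        _ ≤ 4 := by linarith
    obtain ⟨n, hn1, hn2⟩ := exists_nat_pow_near_of_lt_one (x := R / 4) (y := (2 / 5 : ℝ))
      (by positivity) (by linarith) (by norm_num) (by norm_num)
    set ρ : ℝ := (2 / 5 : ℝ) ^ (n + 1) with hρ
    have hρ0 : 0 < ρ := by positivity
    have hρR : R / 10 ≤ ρ := by rw [hρ, pow_succ]; linarith
    obtain ⟨v, ⟨q, hq, hxq⟩, hv⟩ := F_copy h hF (n + 1) x hx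
    have hball : Metric.closedBall v ρ ⊆ Metric.closedBall x R ∩ F := by
      intro z hz
      rw [Metric.mem_closedBall, dist_eq_norm] at hz
      refine ⟨?_, ?_⟩
      · rw [Metric.mem_closedBall, dist_eq_norm, hxq]
        have e : z - (((2 / 5 : ℝ) ^ (n + 1)) • q + v)
            = (z - v) - ((2 / 5 : ℝ) ^ (n + 1)) • q := by abel
        rw [e]
        calc ‖(z - v) - ((2 / 5 : ℝ) ^ (n + 1)) • q‖
            ≤ ‖z - v‖ + ‖((2 / 5 : ℝ) ^ (n + 1)) • q‖ := norm_sub_le _ _
          _ ≤ ρ + ρ * 2 := by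
            refine add_le_add hz ?_
            rw [norm_smul, Real.norm_of_nonneg (by positivity)]
            exact mul_le_mul_of_nonneg_left (norm_le_two (F_box1 h hF hq)) hρ0.le
          _ ≤ R := by linarith
      · have h1 : (ρ⁻¹ • (z - v)) ∈ F := by
          apply Q_sub h hF
          apply ball_sub_Q
          rw [mem_closedBall_zero_iff, norm_smul, norm_inv, Real.norm_of_nonneg hρ0.le]
          rw [inv_mul_le_iff₀ hρ0]
          linarith
        have h2 := hv _ h1
        rw [← hρ, smul_smul, mul_inv_cancel₀ hρ0.ne', one_smul, sub_add_cancel] at h2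
        exact h2
    have h3 := coverNumber_lower (S := Metric.closedBall x R ∩ F) (r := r) (ρ := ρ) (z := v)
      (Metric.isBounded_closedBall.subset inter_subset_left) hr hρ0.le hball
    refine le_trans ?_ h3
    have e2 : (R / r) ^ ((2 : ℝ≥0) : ℝ) = (R / r) ^ 2 := by
      rw [NNReal.coe_ofNat]; exact Real.rpow_ofNat _ 2
    rw [e2]
    have h4 : R / r / 10 ≤ ρ / r := by
      rw [div_div, mul_comm r 10, ← div_div]
      exact div_le_div_of_nonneg_right hρR hr.le
    calc 1 / 100 * (R / r) ^ 2 = (R / r / 10) ^ 2 := by ring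
      _ ≤ (ρ / r) ^ 2 := pow_le_pow_left₀ (by positivity) h4 2
  have := le_iSup₂ (f := fun (s : ℝ≥0) (_ : LowerExponent F s) => (s : ℝ≥0∞)) 2 hexp
  simpa [lowerDim] using this

/-! ### The second region: the diagonal map is extremal. -/

/-- The far point. -/
noncomputable def far : E2 := !₂[10, 0]

theorem far_zero {t : Fin 10 → E2} (h : Close far t) : 199 / 20 ≤ t 9 0 ∧ t 9 0 ≤ 201 / 20 := by
  have h1 := h 9 0
  simp only [base, if_true, far] at h1
  rw [abs_le] at h1
  simp at h1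
  constructor <;> linarith [h1.1, h1.2]

theorem far_one {t : Fin 10 → E2} (h : Close far t) : |t 9 1| ≤ 1 / 20 := by
  have h1 := h 9 1
  simpa [base, far] using h1

theorem F_box2 {t : Fin 10 → E2} (h : Close far t) {F : Set E2} (hF : IsAttractor AA t F) :
    F ⊆ Box 17 (5 / 4) := by
  refine attractor_sub (by norm_num) (by norm_num) AA_norm hF (Box_closed _ _)
    (Box_nonempty (by norm_num) (by norm_num)) ?_
  intro i x hx
  by_cases hi : i = 9
  · subst hi
    refine ⟨?_, ?_⟩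
    · rw [PiLp.add_apply, AA_zero]
      obtain ⟨h1, h2⟩ := far_zero h
      exact abs_aff (by norm_num) hx.1 (T := 201 / 20) (abs_le.2 ⟨by linarith, h2⟩) (by norm_num)
    · rw [PiLp.add_apply, AA_nine_one]
      exact abs_aff (by norm_num) hx.2 (far_one h) (by norm_num)
  · refine ⟨?_, ?_⟩
    · rw [PiLp.add_apply, AA_zero]
      exact abs_aff (by norm_num) hx.1 (base_bound h hi 0) (by norm_num)
    · rw [PiLp.add_apply, AA_one hi]
      exact abs_aff (by norm_num) hx.2 (base_bound h hi 1) (by norm_num)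

/-- The fixed point of the diagonal map. -/
noncomputable def fp (t : Fin 10 → E2) : E2 := !₂[5 / 3 * t 9 0, 5 / 4 * t 9 1]

theorem fp_fix (t : Fin 10 → E2) : AA 9 (fp t) + t 9 = fp t := by
  ext k
  fin_cases k
  · change (AA 9 (fp t) + t 9) 0 = fp t 0
    rw [PiLp.add_apply, AA_zero]
    simp [fp]; ring
  · change (AA 9 (fp t) + t 9) 1 = fp t 1
    rw [PiLp.add_apply, AA_nine_one]
    simp [fp]; ring

theorem fp_mem {t : Fin 10 → E2} {F : Set E2} (hF : IsAttractor AA t F) : fp t ∈ F := by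
  have : ({fp t} : Set E2) ⊆ F := by
    refine sub_attractor (by norm_num) (by norm_num) AA_norm hF Bornology.isBounded_singleton ?_
    intro x hx
    rw [mem_singleton_iff] at hx
    subst hx
    exact ⟨9, fp t, rfl, fp_fix t⟩
  exact this rfl

theorem fp_zero (t : Fin 10 → E2) : fp t 0 = 5 / 3 * t 9 0 := by simp [fp]
theorem fp_one (t : Fin 10 → E2) : fp t 1 = 5 / 4 * t 9 1 := by simp [fp]

theorem F_right {t : Fin 10 → E2} (h : Close far t) {F : Set E2} (hF : IsAttractor AA t F) :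
    ∀ x ∈ F, x 0 ≤ fp t 0 := by
  have hcl : IsClosed {x : E2 | x 0 ≤ fp t 0} := isClosed_le (cont_coord 0) continuous_const
  have hsub : F ⊆ {x : E2 | x 0 ≤ fp t 0} := by
    refine attractor_sub (by norm_num) (by norm_num) AA_norm hF hcl
      ⟨fp t, le_refl (fp t 0)⟩ ?_
    intro i x hx
    obtain ⟨h1, h2⟩ := far_zero h
    have hx' : x 0 ≤ 5 / 3 * t 9 0 := by rw [← fp_zero]; exact hx
    change (AA i x + t i) 0 ≤ fp t 0
    rw [PiLp.add_apply, AA_zero, fp_zero]
    by_cases hi : i = 9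
    · subst hi; linarith
    · have := (abs_le.1 (base_bound h hi 0)).2
      linarith
  exact fun x hx => hsub hx

theorem F_thin {t : Fin 10 → E2} (h : Close far t) {F : Set E2} (hF : IsAttractor AA t F)
    (k : ℕ) : ∀ x ∈ F, fp t 0 - x 0 < 9 * (2 / 5 : ℝ) ^ k →
      |x 1 - fp t 1| ≤ 3 * (1 / 5 : ℝ) ^ (k + 1) := by
  have hfirst : ∀ x ∈ F, fp t 0 - x 0 < 9 → ∃ y ∈ F, AA 9 y + t 9 = x := by
    intro x hx hlt
    obtain ⟨i, y, hy, hyx⟩ := exists_F hF hx
    by_cases hi : i = 9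
    · subst hi; exact ⟨y, hy, hyx⟩
    · exfalso
      have h1 := F_right h hF y hy
      have h2 : x 0 = 2 / 5 * y 0 + t i 0 := by rw [← hyx, PiLp.add_apply, AA_zero]
      have h3 := (abs_le.1 (base_bound h hi 0)).2
      obtain ⟨h4, h5⟩ := far_zero h
      rw [fp_zero] at hlt h1
      linarith
  induction k with
  | zero =>
    intro x hx hlt
    obtain ⟨y, hy, hyx⟩ := hfirst x hx (by simpa using hlt)
    have h2 : x 1 = 1 / 5 * y 1 + t 9 1 := by rw [← hyx, PiLp.add_apply, AA_nine_one]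
    have h3 := (F_box2 h hF hy).2
    have h4 := far_one h
    rw [fp_one, h2]
    rw [abs_le] at h3 h4 ⊢
    constructor <;> linarith [h3.1, h3.2, h4.1, h4.2]
  | succ k ih =>
    intro x hx hlt
    have hle : (2 / 5 : ℝ) ^ (k + 1) ≤ 1 := pow_le_one₀ (by norm_num) (by norm_num)
    obtain ⟨y, hy, hyx⟩ := hfirst x hx (by linarith)
    have h0 : x 0 = 2 / 5 * y 0 + t 9 0 := by rw [← hyx, PiLp.add_apply, AA_zero]
    have h2 : x 1 = 1 / 5 * y 1 + t 9 1 := by rw [← hyx, PiLp.add_apply, AA_nine_one]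
    have h5 : fp t 0 - y 0 < 9 * (2 / 5 : ℝ) ^ k := by
      rw [fp_zero] at hlt ⊢
      rw [pow_succ] at hlt
      linarith
    have h6 := ih y hy h5
    have e : x 1 - fp t 1 = 1 / 5 * (y 1 - fp t 1) := by
      rw [h2, fp_one]; ring
    rw [e, abs_mul, abs_of_pos (by norm_num : (0 : ℝ) < 1 / 5)]
    calc 1 / 5 * |y 1 - fp t 1| ≤ 1 / 5 * (3 * (1 / 5 : ℝ) ^ (k + 1)) :=
          mul_le_mul_of_nonneg_left h6 (by norm_num)
      _ = 3 * (1 / 5 : ℝ) ^ (k + 1 + 1) := by ring

theorem lower_le {t : Fin 10 → E2} (h : Close far t) {F : Set E2} (hF : IsAttractor AA t F) :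
    lowerDim F ≤ 1 := by
  refine iSup₂_le fun s hs => ?_
  obtain ⟨C, hC, hs⟩ := hs
  have key : (s : ℝ) ≤ 1 := by
    refine exp_le (C := 5 / C) (x := fun k : ℕ => 15 / 8 * (2 : ℝ) ^ k) ?_ ?_
    · exact (tendsto_pow_atTop_atTop_of_one_lt (by norm_num)).const_mul_atTop (by norm_num)
    · intro k _
      set R : ℝ := 9 / 2 * (2 / 5 : ℝ) ^ k with hR
      set r : ℝ := 12 * (1 / 5 : ℝ) ^ (k + 1) with hr
      have hR0 : 0 < R := by positivity
      have hr0 : 0 < r := by positivity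
      have hratio : R / r = 15 / 8 * (2 : ℝ) ^ k := by
        rw [div_eq_iff hr0.ne', hR, hr]
        have e : (2 / 5 : ℝ) ^ k = 2 ^ k * (1 / 5) ^ k := by rw [← mul_pow]; norm_num
        rw [e, pow_succ]; ring
      have h2k : (1 : ℝ) ≤ 2 ^ k := one_le_pow₀ (by norm_num)
      have hrR : r < R := by
        rw [← one_lt_div hr0, hratio]; linarith
      have hRd : R ≤ Metric.diam F := by
        have hd : dist (fp t) 0 ≤ Metric.diam F := by
          refine Metric.dist_le_diam_of_mem hF.2.1.isBounded (fp_mem hF) (Q_sub h hF ?_)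
          simp [Q]
        have h16 : 16 ≤ dist (fp t) 0 := by
          rw [dist_zero_right]
          have := abs_coord_le (fp t) 0
          rw [fp_zero] at this
          have h1 := (far_zero h).1
          have h2 := le_abs_self (5 / 3 * t 9 0)
          linarith
        have hle : (2 / 5 : ℝ) ^ k ≤ 1 := pow_le_one₀ (by norm_num) (by norm_num)
        rw [hR]
        linarith
      have h1 := hs (fp t) (fp_mem hF) r R hr0 hrR hRd
      have h3 : (coverNumber r (Metric.closedBall (fp t) R ∩ F) : ℝ) ≤ 4 * (R / r) + 1 := by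
        refine coverNumber_thin (a := fp t 0) (b := fp t 1) (h := 3 * (1 / 5 : ℝ) ^ (k + 1))
          hr0 hR0.le (by rw [hr]; linarith) ?_
        rintro x ⟨hx1, hx2⟩
        have hx0 : |x 0 - fp t 0| ≤ R := by
          rw [Metric.mem_closedBall, dist_eq_norm] at hx1
          exact (abs_coord_le (x - fp t) 0).trans hx1
        refine ⟨hx0, F_thin h hF k x hx2 ?_⟩
        have := (abs_le.1 hx0).1
        have h9 : R < 9 * (2 / 5 : ℝ) ^ k := by
          rw [hR]
          have : (0 : ℝ) < (2 / 5) ^ k := by positivity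
          linarith
        linarith
      rw [hratio] at h1 h3
      rw [Real.rpow_one]
      have h4 := h1.trans h3
      have h5 : 5 / C * (15 / 8 * (2 : ℝ) ^ k) = 5 * (15 / 8 * (2 : ℝ) ^ k) / C := by ring
      rw [h5, le_div_iff₀ hC, mul_comm]
      linarith
  have : (s : ℝ≥0∞) ≤ ((1 : ℝ≥0) : ℝ≥0∞) := by
    rw [ENNReal.coe_le_coe]
    exact_mod_cast key
  simpa using this

theorem far_pos (q : E2) : 0 < (volume : Measure (Fin 10 → E2)) (Metric.ball (base q) (1 / 20)) :=
  Metric.measure_ball_pos _ _ (by norm_num)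

end Pool.Agent.L7h32.SA
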